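import Pool.Agent.Lib.MP_b5021c_nt.IfaceOF

/-!
# MP_b5021c_nt, row OF_REC (helper47)

`v conj(z f)` real on the circle, `v = q + z f`: then `u q = f (1 - h z + z²)`, `h = a + 1/a`
is an integer and `h - u = T' + 1/T'`.
-/

set_option autoImplicit false

namespace Pool.Agent.B5.OF47

open Polynomial
open Pool.Agent.MP_b5021c_nt (nz)

theorem cconj (p : ℤ[X]) (z : ℂ) :
    (starRingEnd ℂ) ((cpz p).eval z) = (cpz p).eval ((starRingEnd ℂ) z) := by
  have h1 : (starRingEnd ℂ).comp (Coef.emb : ℤ →+* ℂ) = (Coef.emb : ℤ →+* ℂ) :=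
    RingHom.ext_int _ _
  unfold cpz
  rw [eval_map, eval_map, hom_eval₂, h1]

theorem ccoeff (p : ℤ[X]) (n : ℕ) : (cpz p).coeff n = ((p.coeff n : ℤ) : ℂ) := by
  unfold cpz
  rw [Polynomial.coeff_map]
  exact eq_intCast _ _

theorem cadd (p q : ℤ[X]) : cpz (p + q) = cpz p + cpz q := Polynomial.map_add _

theorem csub (p q : ℤ[X]) : cpz (p - q) = cpz p - cpz q := Polynomial.map_sub _

theorem cX (p : ℤ[X]) : cpz (X * p) = X * cpz p := by
  unfold cpz
  rw [Polynomial.map_mul, Polynomial.map_X]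

theorem inf_circle : {z : ℂ | ‖z‖ = 1}.Infinite := by
  have h1 : Infinite (Set.Ioc (-Real.pi) Real.pi) :=
    (Set.Ioc_infinite (by linarith [Real.pi_pos])).to_subtype
  have h2 : Infinite Circle := Infinite.of_injective _ Circle.argEquiv.symm.injective
  exact Set.infinite_of_injective_forall_mem (α := Circle) (f := fun z => (z : ℂ))
    Circle.coe_injective fun z => Circle.norm_coe z

theorem rev_eval (p : ℂ[X]) {z : ℂ} (hz : z ≠ 0) :
    p.reverse.eval z = z ^ p.natDegree * p.eval z⁻¹ := by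
  have : Invertible z⁻¹ := invertibleOfNonzero (inv_ne_zero hz)
  have h1 := eval₂_reverse_mul_pow (RingHom.id ℂ) z⁻¹ p
  rw [invOf_eq_inv, inv_inv] at h1
  have h2 : z ^ p.natDegree * (z⁻¹) ^ p.natDegree = 1 := by
    rw [← mul_pow, mul_inv_cancel₀ hz, one_pow]
  change p.reverse.eval z * z⁻¹ ^ p.natDegree = p.eval z⁻¹ at h1
  rw [← h1]
  linear_combination (-(p.reverse.eval z)) * h2

/-- The two reciprocal identities. -/
theorem recip {Q F : ℂ[X]} (hc : ∀ z : ℂ, ‖z‖ = 1 →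
    Q.eval z * z⁻¹ * F.eval z⁻¹ = Q.eval z⁻¹ * z * F.eval z) (hQ0 : Q.coeff 0 ≠ 0)
    (hF0 : F.coeff 0 ≠ 0) :
    Q.natDegree = F.natDegree + 2 ∧ Q * F.reverse = Q.reverse * F := by
  have e : Q * F.reverse * X ^ Q.natDegree = Q.reverse * F * X ^ (F.natDegree + 2) := by
    refine eq_of_infinite_eval_eq _ _ (inf_circle.mono ?_)
    intro z hz
    have hz1 : ‖z‖ = 1 := hz
    have hz0 : z ≠ 0 := by
      intro h
      rw [h, norm_zero] at hz1
      exact zero_ne_one hz1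
    have h1 := hc z hz1
    change eval z _ = eval z _
    rw [eval_mul, eval_mul, eval_mul, eval_mul, eval_pow, eval_pow, eval_X, rev_eval _ hz0,
      rev_eval _ hz0]
    have h2 : z * z⁻¹ = 1 := mul_inv_cancel₀ hz0
    have h3 : Q.eval z * F.eval z⁻¹ = Q.eval z⁻¹ * F.eval z * z ^ 2 := by
      linear_combination z * h1 - (Q.eval z * F.eval z⁻¹) * h2
    rw [pow_add]
    linear_combination (z ^ F.natDegree * z ^ Q.natDegree) * h3
  have hQr : Q.reverse.coeff 0 ≠ 0 := by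
    rw [coeff_zero_reverse, leadingCoeff_ne_zero]
    intro h
    rw [h] at hQ0
    exact hQ0 (coeff_zero 0)
  have hFr : F.reverse.coeff 0 ≠ 0 := by
    rw [coeff_zero_reverse, leadingCoeff_ne_zero]
    intro h
    rw [h] at hF0
    exact hF0 (coeff_zero 0)
  have hX : ∀ n : ℕ, (X : ℂ[X]) ^ n ≠ 0 := fun n => pow_ne_zero _ X_ne_zero
  rcases lt_trichotomy Q.natDegree (F.natDegree + 2) with h | h | h
  · exfalso
    obtain ⟨k, hk⟩ := Nat.exists_eq_add_of_lt h
    rw [hk, add_assoc, pow_add, ← mul_assoc, mul_right_comm _ (X ^ Q.natDegree)] at e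
    have e2 := mul_right_cancel₀ (hX _) e
    have e3 := congrArg (fun p : ℂ[X] => p.coeff 0) e2
    simp only [mul_coeff_zero, coeff_X_pow] at e3
    simp at e3
    rcases e3 with e3 | e3
    · exact hQ0 e3
    · rw [e3] at hFr
      simp at hFr
  · refine ⟨h, ?_⟩
    rw [← h] at e
    exact mul_right_cancel₀ (hX _) e
  · exfalso
    obtain ⟨k, hk⟩ := Nat.exists_eq_add_of_lt h
    rw [hk, add_assoc, pow_add, ← mul_assoc, mul_right_comm _ (X ^ (F.natDegree + 2))] at e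
    have e2 := mul_right_cancel₀ (hX _) e
    have e3 := congrArg (fun p : ℂ[X] => p.coeff 0) e2
    simp only [mul_coeff_zero, coeff_X_pow] at e3
    simp at e3
    rcases e3 with e3 | e3
    · rw [e3] at hQr
      simp at hQr
    · exact hF0 e3

/-- The polynomial `P = Q / (X - a)` has no zeros in the closed disc. -/
theorem quot {Q P : ℂ[X]} {a : ℂ} (hn : nz Q = 1) (hc : ∀ z : ℂ, ‖z‖ = 1 → Q.eval z ≠ 0)
    (ha : ‖a‖ < 1) (hQ : Q = (X - C a) * P) (hQ0 : Q ≠ 0) : ∀ z : ℂ, ‖z‖ ≤ 1 → P.eval z ≠ 0 := by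
  intro z hz h0
  have hP0 : P ≠ 0 := by
    intro h
    rw [h, mul_zero] at hQ
    exact hQ0 hQ
  rcases hz.lt_or_eq with h1 | h1
  · have h2 : z ∈ P.roots.filter (fun z => ‖z‖ < 1) := by
      rw [Multiset.mem_filter, mem_roots hP0]
      exact ⟨h0, h1⟩
    have h3 : 0 < (P.roots.filter (fun z => ‖z‖ < 1)).card := Multiset.card_pos_iff_exists_mem.mpr ⟨z, h2⟩
    have h4 : Q.roots = {a} + P.roots := by
      rw [hQ, roots_mul (by rw [← hQ]; exact hQ0), roots_X_sub_C]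
    unfold nz at hn
    rw [h4, Multiset.filter_add, Multiset.card_add, Multiset.filter_singleton, if_pos ha,
      Multiset.card_singleton] at hn
    omega
  · refine hc z h1 ?_
    rw [hQ, eval_mul, h0, mul_zero]

theorem rev_lin {a : ℂ} : (X - C a : ℂ[X]).reverse = 1 - C a * X := by
  refine eq_of_infinite_eval_eq _ _ (inf_circle.mono ?_)
  intro z hz
  have hz1 : ‖z‖ = 1 := hz
  have hz0 : z ≠ 0 := by
    intro h
    rw [h, norm_zero] at hz1
    exact zero_ne_one hz1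
  change eval z _ = eval z _
  rw [rev_eval _ hz0, natDegree_X_sub_C]
  simp only [eval_sub, eval_X, eval_C, eval_one, eval_mul, pow_one]
  field_simp

/-- The structure of `Q` and `F`. -/
theorem struct {Q F P : ℂ[X]} {a : ℂ} (ha0 : a ≠ 0) (hP : ∀ z : ℂ, ‖z‖ ≤ 1 → P.eval z ≠ 0)
    (hQ : Q = (X - C a) * P) (hQ0 : Q.coeff 0 = 1) (hF0 : F.coeff 0 ≠ 0)
    (hd : Q.natDegree = F.natDegree + 2) (hr : Q * F.reverse = Q.reverse * F) :
    C (-(a * F.coeff 0)) * P = (1 - C a * X) * F := by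
  have hF : F ≠ 0 := by
    intro h
    rw [h] at hF0
    exact hF0 (coeff_zero 0)
  have hP0 : P ≠ 0 := by
    intro h
    have := hP 0 (by simp)
    rw [h] at this
    simp at this
  have hcop : IsCoprime P P.reverse := by
    rw [isCoprime_iff_aeval_ne_zero_of_isAlgClosed ℂ ℂ]
    intro z
    rcases le_or_gt ‖z‖ 1 with h | h
    · left
      rw [coe_aeval_eq_eval]
      exact hP z h
    · right
      have hz0 : z ≠ 0 := by
        intro h0
        rw [h0, norm_zero] at h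
        linarith
      rw [coe_aeval_eq_eval, rev_eval _ hz0]
      refine mul_ne_zero (pow_ne_zero _ hz0) (hP _ ?_)
      rw [norm_inv]
      exact inv_le_one_of_one_le₀ h.le
  have h1 : P ∣ P.reverse * ((1 - C a * X) * F) := by
    refine ⟨(X - C a) * F.reverse, ?_⟩
    have h2 : Q.reverse = (1 - C a * X) * P.reverse := by
      rw [hQ, reverse_mul_of_domain, rev_lin]
    rw [h2, hQ] at hr
    linear_combination -hr
  obtain ⟨w, hw⟩ := hcop.dvd_of_dvd_mul_left h1
  have hlin : (1 - C a * X : ℂ[X]).natDegree = 1 := by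
    have h2 : (1 - C a * X : ℂ[X]) = C (-a) * X + C 1 := by
      rw [C_neg, C_1]
      ring
    rw [h2]
    exact natDegree_linear (neg_ne_zero.mpr ha0)
  have hlin0 : (1 - C a * X : ℂ[X]) ≠ 0 := by
    intro h
    rw [h, natDegree_zero] at hlin
    exact zero_ne_one hlin
  have hw0 : w ≠ 0 := by
    intro h
    rw [h, mul_zero] at hw
    exact mul_ne_zero hlin0 hF hw
  have hdeg : w.natDegree = 0 := by
    have h2 := congrArg natDegree hw
    rw [natDegree_mul hlin0 hF, natDegree_mul hP0 hw0, hlin] at h2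
    have h3 : Q.natDegree = 1 + P.natDegree := by
      rw [hQ, natDegree_mul (X_sub_C_ne_zero a) hP0, natDegree_X_sub_C]
    omega
  obtain ⟨c, hc⟩ := natDegree_eq_zero.mp hdeg
  have h4 : C c * Q = (X - C a) * ((1 - C a * X) * F) := by
    rw [hw, ← hc, hQ]
    ring
  have h5 := congrArg (fun p : ℂ[X] => p.coeff 0) h4
  simp only [mul_coeff_zero, coeff_sub, coeff_C_zero, coeff_X_zero, hQ0, coeff_one_zero, mul_one,
    mul_zero, sub_zero, one_mul, zero_sub] at h5
  rw [hw, ← hc, h5, mul_comm]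
  congr 1
  congr 1
  ring

theorem int_inv {q : ℤ[X]} (hq0 : q.coeff 0 = 1) {x : ℂ} (hx : x ≠ 0)
    (h : (cpz q).eval x = 0) : IsIntegral ℤ x⁻¹ := by
  have : Invertible x := invertibleOfNonzero hx
  have h1 : eval₂ (algebraMap ℤ ℂ) x q = 0 := by
    rw [← h]
    unfold cpz
    rw [eval_map]
    congr 1
  refine ⟨q.reverse, ?_, ?_⟩
  · change q.reverse.leadingCoeff = 1
    rw [reverse_leadingCoeff, trailingCoeff]
    have h2 : q.natTrailingDegree = 0 := by
      rw [natTrailingDegree_eq_zero]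
      right
      rw [hq0]
      exact one_ne_zero
    rw [h2, hq0]
  · have h2 := (eval₂_reverse_eq_zero_iff (algebraMap ℤ ℂ) x q).mpr h1
    rwa [invOf_eq_inv] at h2

theorem conj_inv {z : ℂ} (hz : ‖z‖ = 1) : (starRingEnd ℂ) z = z⁻¹ := by
  have h1 : z * (starRingEnd ℂ) z = 1 := by
    rw [Complex.mul_conj, Complex.normSq_eq_norm_sq, hz]
    simp
  exact eq_inv_of_mul_eq_one_right h1

/-- Row OF_REC. -/
theorem rec_st : RecS := by
  intro q f a T' hL ha0 ha1 hqa hq0 hf0 hT hv hre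
  have hQ0 : (cpz q).coeff 0 = 1 := by
    rw [ccoeff, hq0]
    simp
  have hFc : (cpz f).coeff 0 = ((f.coeff 0 : ℤ) : ℂ) := ccoeff f 0
  have hu0 : ((f.coeff 0 : ℤ) : ℂ) ≠ 0 := by
    have : f.coeff 0 ≠ 0 := by omega
    exact_mod_cast this
  have huR : (1 : ℝ) ≤ (f.coeff 0 : ℤ) := by exact_mod_cast hf0
  have hF0 : (cpz f).coeff 0 ≠ 0 := by rw [hFc]; exact hu0
  have haC : (a : ℂ) ≠ 0 := by exact_mod_cast ha0.ne'
  -- the identity on the circle
  have hc : ∀ z : ℂ, ‖z‖ = 1 → (cpz q).eval z * z⁻¹ * (cpz f).eval z⁻¹ =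
      (cpz q).eval z⁻¹ * z * (cpz f).eval z := by
    intro z hz
    have h1 := Complex.conj_eq_iff_im.mpr (hre z hz)
    rw [map_mul, Complex.conj_conj, cadd, cX, eval_add, eval_mul, eval_X, map_add, map_mul,
      cconj, cconj, conj_inv hz] at h1
    linear_combination -h1
  obtain ⟨hd, hr⟩ := recip hc (by rw [hQ0]; exact one_ne_zero) hF0
  obtain ⟨P, hP⟩ := dvd_iff_isRoot.mpr (show (cpz q).IsRoot (a : ℂ) from hqa)
  have hQne : cpz q ≠ 0 := by
    intro h
    rw [h, coeff_zero] at hQ0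
    exact zero_ne_one hQ0
  have hna : ‖(a : ℂ)‖ < 1 := by
    rw [Complex.norm_real, Real.norm_eq_abs, abs_of_pos ha0]
    exact ha1
  have hPne := quot hL.nzq hL.qc hna hP hQne
  have hS := struct haC hPne hP hQ0 hF0 hd hr
  rw [hFc] at hS
  set u : ℤ := f.coeff 0 with hu
  have hSe : ∀ z : ℂ, -(a * u) * P.eval z = (1 - a * z) * (cpz f).eval z := by
    intro z
    have h1 := congrArg (fun p : ℂ[X] => p.eval z) hS
    simpa using h1
  have hQe : ∀ z : ℂ, (cpz q).eval z = (z - a) * P.eval z := by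
    intro z
    have h1 := congrArg (fun p : ℂ[X] => p.eval z) hP
    simpa using h1
  -- u Q = (1 - h z + z^2) F
  have hE : ∀ z : ℂ, (u : ℂ) * (cpz q).eval z =
      (1 - (a + (a : ℂ)⁻¹) * z + z ^ 2) * (cpz f).eval z := by
    intro z
    have h1 := hSe z
    have h2 : (a : ℂ) * (a : ℂ)⁻¹ = 1 := mul_inv_cancel₀ haC
    have h3 : (a : ℂ) * ((u : ℂ) * (cpz q).eval z) =
        a * ((1 - (a + (a : ℂ)⁻¹) * z + z ^ 2) * (cpz f).eval z) := by
      rw [hQe]
      linear_combination (-(z - a)) * h1 + (z * (cpz f).eval z) * h2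
    exact mul_left_cancel₀ haC h3
  have hE1 : (u : ℂ) * ((q.coeff 1 : ℤ) : ℂ) =
      ((f.coeff 1 : ℤ) : ℂ) - (a + (a : ℂ)⁻¹) * u := by
    have h1 : C (u : ℂ) * cpz q = (1 - C (a + (a : ℂ)⁻¹) * X + X ^ 2) * cpz f := by
      refine Polynomial.funext fun z => ?_
      have := hE z
      simpa using this
    have h2 := congrArg (fun p : ℂ[X] => p.coeff 1) h1
    have hC1 : ∀ c : ℂ, (C c : ℂ[X]).coeff 1 = 0 := fun c => coeff_C_of_ne_zero one_ne_zero
    simp only [mul_coeff_one, coeff_C_zero, hC1, coeff_add, coeff_sub, coeff_one_zero,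
      mul_coeff_zero, coeff_X_zero, coeff_X_one, coeff_X_pow, ccoeff] at h2
    rw [← hu, hq0] at h2
    simp [coeff_one] at h2
    linear_combination h2
  -- integrality
  have hi1 : IsIntegral ℤ ((a : ℂ)⁻¹) := int_inv hq0 haC hqa
  have hqi : (cpz q).eval ((a : ℂ)⁻¹) = 0 := by
    have h1 := hE ((a : ℂ)⁻¹)
    have h2 : (a : ℂ) * (a : ℂ)⁻¹ = 1 := mul_inv_cancel₀ haC
    have h3 : (1 : ℂ) - (a + (a : ℂ)⁻¹) * (a : ℂ)⁻¹ + (a : ℂ)⁻¹ ^ 2 = 0 := by
      linear_combination -h2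
    rw [h3, zero_mul] at h1
    exact (mul_eq_zero.mp h1).resolve_left hu0
  have hi2 : IsIntegral ℤ (a : ℂ) := by
    have h1 := int_inv hq0 (inv_ne_zero haC) hqi
    rwa [inv_inv] at h1
  have hh : ∃ h : ℤ, (h : ℝ) = a⁻¹ + a := by
    have h1 : IsIntegral ℤ ((a : ℂ) + (a : ℂ)⁻¹) := hi2.add hi1
    have h2 : ((a : ℂ) + (a : ℂ)⁻¹) =
        algebraMap ℚ ℂ (((f.coeff 1 : ℤ) : ℚ) / ((u : ℤ) : ℚ) - ((q.coeff 1 : ℤ) : ℚ)) := by
      rw [map_sub, map_div₀, map_intCast, map_intCast, map_intCast, eq_sub_iff_add_eq,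
        eq_div_iff hu0]
      linear_combination hE1
    rw [h2, isIntegral_algebraMap_iff (algebraMap ℚ ℂ).injective] at h1
    obtain ⟨m, hm⟩ := IsIntegrallyClosed.isIntegral_iff.mp h1
    refine ⟨m, ?_⟩
    rw [← hm] at h2
    have h3 : ((m : ℝ) : ℂ) = ((a⁻¹ + a : ℝ) : ℂ) := by
      push_cast
      rw [add_comm, h2]
      simp
    exact_mod_cast h3
  obtain ⟨h, hh⟩ := hh
  have hhC : (a : ℂ) + (a : ℂ)⁻¹ = (h : ℂ) := by
    have h1 : ((a⁻¹ + a : ℝ) : ℂ) = ((h : ℝ) : ℂ) := by rw [hh]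
    push_cast at h1
    rw [add_comm]
    exact h1
  rw [hhC] at hE
  -- the zero of v
  have hT0 : 0 < T' := by linarith
  have hv2 : (h : ℝ) - u = T' + T'⁻¹ := by
    set t : ℝ := T'⁻¹ with ht
    have ht0 : 0 < t := inv_pos.mpr hT0
    have ht1 : t < 1 := inv_lt_one_of_one_lt₀ hT
    rw [cadd, cX, eval_add, eval_mul, eval_X] at hv
    have h1 := hE (t : ℂ)
    have h2 : (1 - ((h : ℂ) - u) * t + (t : ℂ) ^ 2) * (cpz f).eval (t : ℂ) = 0 := by
      linear_combination (u : ℂ) * hv - h1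
    rcases mul_eq_zero.mp h2 with h3 | h3
    · have h4 : 1 - ((h : ℝ) - u) * t + t ^ 2 = 0 := by exact_mod_cast h3
      have h5 : T' * t = 1 := mul_inv_cancel₀ hT0.ne'
      have h6 : ((h : ℝ) - u) * (T' * t) = T' + t * (T' * t) := by
        linear_combination (-T') * h4
      rw [h5, mul_one, mul_one] at h6
      exact h6
    · exfalso
      rw [h3, mul_zero] at h1
      have h4 := (mul_eq_zero.mp h1).resolve_left hu0
      rw [hQe] at h4
      have h5 : P.eval (t : ℂ) ≠ 0 := hPne _ (by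
        rw [Complex.norm_real, Real.norm_eq_abs, abs_of_pos ht0]
        exact ht1.le)
      have h6 := hSe (t : ℂ)
      rw [h3, mul_zero] at h6
      exact mul_ne_zero (neg_ne_zero.mpr (mul_ne_zero haC hu0)) h5 h6
  refine ⟨h, hh, hv2, fun k hk => ?_⟩
  -- the mass at -1
  have hneg : ((Circle.exp Real.pi : Circle) : ℂ) = -1 := by
    rw [Circle.coe_exp, Complex.exp_pi_mul_I]
  have h1 := hk (Circle.exp Real.pi)
  rw [map_natCast, hneg, cadd, csub, cX, eval_add, eval_sub, eval_mul, eval_X] at h1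
  have hval : ∀ p : ℤ[X], (cpz p).eval (-1 : ℂ) = ((p.eval (-1) : ℤ) : ℂ) := by
    intro p
    have h2 : ((-1 : ℤ) : ℂ) = -1 := by simp
    unfold cpz
    rw [← h2]
    have h3 := Polynomial.eval_intCast_map (Coef.emb : ℤ →+* ℂ) p (-1)
    rw [h3]
    exact eq_intCast _ _
  rw [hval, hval] at h1
  have hA0 : (cpz q).eval (-1 : ℂ) ≠ 0 := hL.qc _ (by simp)
  have hE2 := hE (-1)
  rw [hval, hval] at hE2
  rw [hval] at hA0
  set A : ℤ := q.eval (-1) with hA
  set B : ℤ := f.eval (-1) with hB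
  have e1 : ((A : ℂ) + -1 * (B : ℂ)) = (((A : ℝ) - B : ℝ) : ℂ) := by push_cast; ring
  have e2 : ((A : ℂ) - -1 * (B : ℂ)) = (((A : ℝ) + B : ℝ) : ℂ) := by push_cast; ring
  rw [e1, e2, Complex.conj_ofReal, ← Complex.ofReal_mul, Complex.ofReal_re, Complex.norm_real,
    Real.norm_eq_abs, sq_abs] at h1
  have h2 : ((k : ℂ)).re = (k : ℝ) := by simp
  rw [h2] at h1
  have hE3 : (u : ℝ) * A = (2 + h) * B := by
    have h3 : (u : ℂ) * A = (2 + h) * B := by linear_combination hE2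
    exact_mod_cast h3
  have hAR : (A : ℝ) ≠ 0 := by exact_mod_cast hA0
  have huP : (0 : ℝ) < u := by linarith
  have hBR : (B : ℝ) ≠ 0 := by
    intro h3
    rw [h3, mul_zero] at hE3
    rcases mul_eq_zero.mp hE3 with h4 | h4
    · exact huP.ne' h4
    · exact hAR h4
  set Y : ℝ := T' + T'⁻¹ with hY
  have hYpos : 0 < Y := by positivity
  have hB2 : 0 < (B : ℝ) ^ 2 := by positivity
  have h3 : (k : ℝ) * ((u : ℝ) * (A - B)) ^ 2 ≤ ((u : ℝ) * (A + B)) * ((u : ℝ) * (A - B)) := by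
    have h4 := mul_le_mul_of_nonneg_left h1 (sq_nonneg (u : ℝ))
    nlinarith [h4]
  have e3 : (u : ℝ) * (A - B) = (2 + Y) * B := by
    linear_combination hE3 + (B : ℝ) * hv2
  have e4 : (u : ℝ) * (A + B) = (2 + h + u) * B := by linear_combination hE3
  rw [e3, e4] at h3
  have h5 : (k : ℝ) * (2 + Y) ≤ 2 + h + u := by
    have h6 : ((B : ℝ) ^ 2 * (2 + Y)) * ((k : ℝ) * (2 + Y)) ≤
        ((B : ℝ) ^ 2 * (2 + Y)) * (2 + h + u) := by nlinarith [h3]
    exact le_of_mul_le_mul_left h6 (by positivity)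
  linarith

end Pool.Agent.B5.OF47
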